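import Pool.Agent.H75.OM.TD

/-!
# ASY: the step of an instance
-/

set_option autoImplicit false

namespace Pool.Agent.H40.OM

open Finset Pool.Agent.H6.NB Pool.Agent.H70.OQ Pool.Agent.H70.EH Pool.Agent.H70.EI
open Pool.Agent.H78.XQ Pool.Agent.H75.OM

theorem lvl {X : Type} {S d : ℕ} {g : (X → Bool) → Bool} (β : Bool) (hS : 1 ≤ S)
    (hg : Cl X S d g) : Cl X S (d + 1) fun y => decide (g y = β) :=
  ⟨1, fun _ => g, fun _ => β, hS, fun _ => hg, fun y => by simp⟩

theorem mm_le (k s : ℕ) : (k + 4) * (s + 2) ^ 4 ≤ 2 ^ mm k s :=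
  (Nat.lt_pow_succ_log_self (by norm_num : 1 < 2) _).le

open Classical in
theorem okf (h3 : T_MNS) (h4 : T_CLQ) (X : Type) (m : ℕ) (a : Rq)
    (O : (X → Bool) → List Bool → Bool) (β : Bool) (hl : Lit O) (hm : mm a.k a.s ≤ m)
    (hn : a.n ≤ a.s) :
    Cl X (2 ^ 2 ^ m) (a.k + 11) fun y => decide (decide (a.ok (O y)) = β) := by
  have hS1 : 1 ≤ 2 ^ 2 ^ m := Nat.one_le_two_pow
  have hS : 2 ^ ((a.k + 4) * (a.s + 2) ^ 4) ≤ 2 ^ 2 ^ m :=
    Nat.pow_le_pow_right (by norm_num)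
      ((mm_le a.k a.s).trans (Nat.pow_le_pow_right (by norm_num) hm))
  by_cases ha : a.act
  · have e1 := h4 X _ 0 a.k a.n a.s O a.L hS hn fun w _ => hl w
    rw [Nat.zero_add] at e1
    have e2 := lvl (!β) hS1 e1
    have e3 : (fun y : X → Bool => decide (decide (a.ok (O y)) = β)) =
        fun y => decide (decide (Has a.k a.n a.s (O y) a.L) = !β) := by
      funext y
      by_cases hh : Has a.k a.n a.s (O y) a.L
      · have e4 : ¬ a.ok (O y) := fun e => e ha hh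
        rw [decide_eq_false e4, decide_eq_true hh]
        cases β <;> rfl
      · have e4 : a.ok (O y) := fun _ => hh
        rw [decide_eq_true e4, decide_eq_false hh]
        cases β <;> rfl
    rw [e3]
    exact e2
  · have e1 : Cl X 1 0 fun _ => decide (true = β) := Or.inl ⟨_, fun _ => rfl⟩
    have e2 := h3 X 1 (2 ^ 2 ^ m) 0 (a.k + 11) _ e1 hS1 (Nat.zero_le _) hS1
    have e3 : (fun y : X → Bool => decide (decide (a.ok (O y)) = β)) =
        fun _ => decide (true = β) := by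
      funext y
      have e4 : a.ok (O y) := fun e => absurd e ha
      rw [decide_eq_true e4]
    rw [e3]
    exact e2

open Classical in
theorem okg (h3 : T_MNS) (h4 : T_CLQ) (X : Type) (m : ℕ) (a : Rq)
    (O : (X → Bool) → List Bool → Bool) (hl : Lit O) (hm : mm a.k a.s ≤ m)
    (hn : a.n ≤ a.s) :
    Cl X (2 ^ 2 ^ m) (a.k + 11) fun y => decide (a.ok (O y)) := by
  have e1 := okf h3 h4 X m a O true hl hm hn
  have e3 : (fun y : X → Bool => decide (a.ok (O y))) =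
      fun y => decide (decide (a.ok (O y)) = true) := by
    funext y
    cases decide (a.ok (O y)) <;> rfl
  rw [e3]
  exact e1

theorem bi_if {a b : Bool} {c : Prop} [Decidable c] (h : (a && b) = true ↔ c) :
    bi (a && b) = if c then 1 else 0 := by
  unfold bi
  by_cases hc : c
  · rw [if_pos hc, if_pos (h.2 hc)]
  · rw [if_neg hc, if_neg fun e => hc (h.1 e)]

open Classical in
theorem core (h2 : T_NS2) (h3 : T_MNS) (h4 : T_CLQ) (h5 : Pool.Agent.H70.EI.T_ACL)
    (h6 : Pool.Agent.H70.EI.T_CNJ) (h7 : Pool.Agent.H70.EI.T_CNT) {e s₀ : ℕ → ℕ} {V : ℕ → ATM}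
    {W : ℕ → Hm} {ρ : ℕ → ℕ} {R : ℕ → Rq} (hS : Sep e s₀ W ρ R) (E : Finset Ix) (r : ℕ)
    (hr20 : 20 ≤ r) (J : Finset {a // a ∈ E}) (κ : {a // a ∈ E} → Bool) (J' : Finset ℕ)
    (κ' : ℕ → Bool) (hJ : ∀ i ∈ J, key V ρ i.1 ≤ r) (hJ' : ∀ a ∈ J', (R a).σ ≤ r) :
    ∃ (S₂ d₂ w₂ : ℕ) (G H : (List Bool → Bool) → Bool), Sz2 r S₂ d₂ w₂ ∧
      (∀ (X : Type) (Q : (X → Bool) → List Bool → Bool), Lit Q →
        Cl X (2 ^ 2 ^ r ^ 2) (r + 2) (fun y => G (Q y)) ∧
        Cl X S₂ (d₂ + 1) (fun y => H (Q y))) ∧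
      ∀ o : List Bool → Bool, bi (G o && H o) =
        if (∀ i ∈ J, decide (ansr V W ρ o i.1) = κ i) ∧
          (∀ a ∈ J', decide ((R a).ok o) = κ' a) then (1 : ℝ) else 0 := by
  have hrr : r + 1 ≤ 2 ^ r := Nat.lt_two_pow_self
  have hrr2 : 2 ^ r ≤ 2 ^ r ^ 2 :=
    Nat.pow_le_pow_right (by norm_num) (Nat.le_self_pow (by norm_num) _)
  have hbig : 2 ^ (r + 1) ≤ 2 ^ 2 ^ r ^ 2 :=
    Nat.pow_le_pow_right (by norm_num) (hrr.trans hrr2)
  have hJc : J.card ≤ 2 ^ r := by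
    have e1 : J.card ≤ (E.filter fun i => key V ρ i ≤ r).card := by
      refine Finset.card_le_card_of_injOn (fun i => i.1) (fun i hi => ?_)
        (fun i _ j _ hij => Subtype.ext hij)
      exact Finset.mem_coe.2 (Finset.mem_filter.2 ⟨i.2, hJ i hi⟩)
    have e2 := h7 V W ρ hS.rho E r hr20
    omega
  have h2S : 2 ≤ 2 ^ 2 ^ r ^ 2 :=
    (Nat.pow_le_pow_right (by norm_num) (Nat.one_le_two_pow) : 2 ^ 1 ≤ 2 ^ 2 ^ r ^ 2)
  rcases Finset.eq_empty_or_nonempty J' with he | hne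
  · subst he
    obtain ⟨w₂, hw⟩ := h2.2 r hr20
    refine ⟨2, 0, w₂, fun o => decide (∀ i ∈ J, decide (ansr V W ρ o i.1) = κ i),
      fun _ => true, hw, fun X Q hQ => ⟨?_, ?_⟩, fun o => ?_⟩
    · have e1 := h6 X _ (2 ^ 2 ^ r ^ 2) r J (fun i y => decide (ansr V W ρ (Q y) i.1)) κ h2S
        (hJc.trans ((Nat.pow_le_pow_right (by norm_num) (Nat.le_succ _)).trans hbig))
        fun i hi => h5 V W ρ hS.rho _ _ _ i.1 hQ (hJ i hi)
      exact Eq.mpr (congrArg (Cl _ _ _) (funext fun c => decide_eq_decide.2 Iff.rfl)) e1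
    · exact h3 X 2 2 0 (0 + 1) _ (Or.inl ⟨true, fun _ => rfl⟩) le_rfl (by norm_num) (by norm_num)
    · exact bi_if ⟨fun e1 => ⟨of_decide_eq_true (Bool.and_eq_true_iff.1 e1).1,
        fun a ha => absurd ha (Finset.notMem_empty a)⟩,
        fun e1 => Bool.and_eq_true_iff.2 ⟨decide_eq_true e1.1, rfl⟩⟩
  · obtain ⟨a1, ha1, hmax⟩ : ∃ a1 ∈ J', ∀ b ∈ J', b ≤ a1 :=
      ⟨J'.max' hne, J'.max'_mem hne, fun b hb => J'.le_max' b hb⟩
    have hσ := hJ' a1 ha1
    obtain ⟨w₂, hw⟩ := h2.1 (mm (R a1).k (R a1).s) (R a1).k (R a1).σ r (hS.s1 a1) (hS.s2 a1) hσ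
    have hJ'c : J'.card ≤ r + 1 := by
      have e1 : J' ⊆ Finset.range (r + 1) := by
        intro a ha
        have e2 : a ≤ ρ a := hS.rho.mono.le_apply
        have e3 := hS.lo a
        have e4 := hJ' a ha
        exact Finset.mem_range.2 (by omega)
      exact (Finset.card_le_card e1).trans (Finset.card_range _).le
    let K : Finset ({a // a ∈ E} ⊕ ℕ) := J.disjSum (J'.erase a1)
    let gi : ({a // a ∈ E} ⊕ ℕ) → (List Bool → Bool) → Bool := fun i o =>
      match i with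
      | .inl i => decide (ansr V W ρ o i.1)
      | .inr a => decide ((R a).ok o)
    let κκ : ({a // a ∈ E} ⊕ ℕ) → Bool := fun i =>
      match i with
      | .inl i => κ i
      | .inr a => κ' a
    have hK : ∀ o : List Bool → Bool, (∀ i ∈ K, gi i o = κκ i) ↔
        (∀ i ∈ J, decide (ansr V W ρ o i.1) = κ i) ∧
          (∀ a ∈ J'.erase a1, decide ((R a).ok o) = κ' a) := by
      intro o
      constructor
      · intro hh
        exact ⟨fun i hi => hh (.inl i) (Finset.inl_mem_disjSum.2 hi),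
          fun a ha => hh (.inr a) (Finset.inr_mem_disjSum.2 ha)⟩
      · rintro ⟨hh1, hh2⟩ (i | a) hi
        · exact hh1 i (Finset.inl_mem_disjSum.1 hi)
        · exact hh2 a (Finset.inr_mem_disjSum.1 hi)
    have hKc : K.card ≤ 2 ^ 2 ^ r ^ 2 := by
      have e1 : K.card = J.card + (J'.erase a1).card := Finset.card_disjSum _ _
      have e2 : (J'.erase a1).card ≤ J'.card := Finset.card_le_card (Finset.erase_subset _ _)
      have e3 : 2 ^ (r + 1) = 2 ^ r + 2 ^ r := by ring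
      omega
    refine ⟨2 ^ 2 ^ mm (R a1).k (R a1).s, (R a1).k + 10, w₂,
      fun o => decide (∀ i ∈ K, gi i o = κκ i),
      fun o => decide (decide ((R a1).ok o) = κ' a1), hw, fun X Q hQ => ⟨?_, ?_⟩, fun o => ?_⟩
    · refine Eq.mpr (congrArg (Cl _ _ _) (funext fun c => decide_eq_decide.2 Iff.rfl))
        (h6 X _ (2 ^ 2 ^ r ^ 2) r K (fun i y => gi i (Q y)) κκ h2S hKc fun i hi => ?_)
      rcases i with i | a
      · exact h5 V W ρ hS.rho _ _ _ i.1 hQ (hJ i (Finset.inl_mem_disjSum.1 hi))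
      · have ha := Finset.inr_mem_disjSum.1 hi
        have ha2 := Finset.mem_erase.1 ha
        have hlt : a < a1 := lt_of_le_of_ne (hmax a ha2.2) ha2.1
        obtain ⟨e1, e2⟩ := hS.prev a1 a hlt
        have e3 : (R a1).σ ^ 2 ≤ r ^ 2 := Nat.pow_le_pow_left hσ 2
        have e4 := okg h3 h4 X (r ^ 2) (R a) Q hQ (e1.trans e3) (hS.ns a)
        exact h3 X _ _ _ r _ e4 le_rfl (by omega) Nat.one_le_two_pow
    · exact okf h3 h4 X _ (R a1) Q (κ' a1) hQ le_rfl (hS.ns a1)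
    · refine bi_if ⟨fun e1 => ?_, fun hh => ?_⟩
      · obtain ⟨e4, e5⟩ := Bool.and_eq_true_iff.1 e1
        have e2 := (hK o).1 (of_decide_eq_true e4)
        have e3 := of_decide_eq_true e5
        refine ⟨e2.1, fun a ha => ?_⟩
        by_cases haa : a = a1
        · rw [haa]
          exact e3
        · exact e2.2 a (Finset.mem_erase.2 ⟨haa, ha⟩)
      · have e1 : ∀ i ∈ K, gi i o = κκ i :=
          (hK o).2 ⟨hh.1, fun a ha => hh.2 a (Finset.mem_of_mem_erase ha)⟩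
        exact Bool.and_eq_true_iff.2 ⟨decide_eq_true e1, decide_eq_true (hh.2 a1 ha1)⟩

theorem pf_ASY (h1 : T_BL2) (h2 : T_NS2) (h3 : T_MNS) (h4 : T_CLQ)
    (h5 : Pool.Agent.H70.EI.T_ACL) (h6 : Pool.Agent.H70.EI.T_CNJ)
    (h7 : Pool.Agent.H70.EI.T_CNT) (h8 : Pool.Agent.H70.EI.T_HMX) : T_ASY := by
  classical
  intro e s₀ V W ρ R hS E O hO g P p h J κ J' κ' b hJ hJ'
  have hX := hO.isx g
  have hr20 : 20 ≤ key V ρ (.inl p) := (h8.2.2 V ρ p).1
  obtain ⟨S₂, d₂, w₂, G, H, hSz2, hGH, hbi⟩ := core h2 h3 h4 h5 h6 h7 hS E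
    (key V ρ (.inl p)) hr20 J κ J' κ' hJ hJ'
  have hL1 : ∀ (P' : (Fin (2 * (hm V p).length) → Bool) → VV (qs (hm V p)) → Bool)
      (u : Fin (2 * (hm V p).length) → Bool) (h' : (Fin (wln (hm V p)) → Bool) → Bool),
      Lit fun c : VV (qs (hm V p)) → Bool =>
        O (Function.update P ⟨.inl p, h⟩ ((Function.update P' u c, h') : CP V p)) g := by
    intro P' u h' w
    have h9 := hX.blkU (Function.update P ⟨.inl p, h⟩ ((P', h') : CP V p)) p h u w
    have h0 : (Function.update P ⟨.inl p, h⟩ ((P', h') : CP V p)) ⟨.inl p, h⟩ = (P', h') :=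
      Function.update_self _ _ _
    rw [h0] at h9
    have h10 : ∀ c : VV (qs (hm V p)) → Bool, Function.update
        (Function.update P ⟨.inl p, h⟩ ((P', h') : CP V p)) ⟨.inl p, h⟩
          ((Function.update ((P', h') : CP V p).1 u c, ((P', h') : CP V p).2) : CP V p) =
        Function.update P ⟨.inl p, h⟩ ((Function.update P' u c, h') : CP V p) := fun c =>
      Function.update_idem _ _ _
    simp only [h10] at h9
    exact h9
  have hL2 : ∀ P' : (Fin (2 * (hm V p).length) → Bool) → VV (qs (hm V p)) → Bool,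
      Lit fun h' : (Fin (wln (hm V p)) → Bool) → Bool =>
        O (Function.update P ⟨.inl p, h⟩ ((P', h') : CP V p)) g := by
    intro P' w
    have h9 := hX.corU (Function.update P ⟨.inl p, h⟩ ((P', fun _ => false) : CP V p)) p h w
    have h0 : (Function.update P ⟨.inl p, h⟩ ((P', fun _ => false) : CP V p)) ⟨.inl p, h⟩ =
      (P', fun _ => false) := Function.update_self _ _ _
    rw [h0] at h9
    have h10 : ∀ c : (Fin (wln (hm V p)) → Bool) → Bool, Function.update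
        (Function.update P ⟨.inl p, h⟩ ((P', fun _ => false) : CP V p)) ⟨.inl p, h⟩
          ((((P', fun _ => false) : CP V p).1, c) : CP V p) =
        Function.update P ⟨.inl p, h⟩ ((P', c) : CP V p) := fun c =>
      Function.update_idem _ _ _
    simp only [h10] at h9
    exact h9
  have hSz : Sz (key V ρ (.inl p)) (hm V p).length (qs (hm V p)) (rns (hm V p)) (wln (hm V p)) :=
    ⟨hr20, (h8.2.2 V ρ p).2.1, (h8.2.2 V ρ p).2.2, rfl, rfl, rfl⟩
  have hcore := h1 _ _ _ _ _ S₂ d₂ w₂ hSz hSz2 b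
    (fun c => G (O (Function.update P ⟨.inl p, h⟩ (c : CP V p)) g))
    (fun c => H (O (Function.update P ⟨.inl p, h⟩ (c : CP V p)) g))
    (fun P' u z => (hGH _ _ (hL1 P' u z)).1) (fun P' => (hGH _ _ (hL2 P')).1)
    (fun P' u z => (hGH _ _ (hL1 P' u z)).2) (fun P' => (hGH _ _ (hL2 P')).2)
  simp only [hbi] at hcore
  exact hcore

end Pool.Agent.H40.OM
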